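import Pool.Agent.U84.AWQ.Stm
import Pool.Agent.R456.CL.CaseB

/-!
# Project AWQ, package FINAL: from the global alternatives to a clean decomposition
-/

set_option autoImplicit false

namespace Pool.Agent.U141.AWQ

open Pool.Agent.R456.CL Pool.Agent.U84.AWQ

universe u

variable {A : Type u} [CStarAlgebra A]

/-- clean elements of orthogonal corners add up -/
lemma clean_add {r s X Y : A} (hrr : r * r = r) (hss : s * s = s) (hrs : r * s = 0)
    (hsr : s * r = 0) (hX : CleanIn r X) (hY : CleanIn s Y) : CleanIn (r + s) (X + Y) := by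
  obtain ⟨P, p1, p2, p3, i1, i2, y, y1, y2, y3, y4⟩ := hX
  obtain ⟨Q, q1, q2, q3, j1, j2, w, w1, w2, w3, w4⟩ := hY
  have key : ∀ a b : A, a * r = a → s * b = b → a * b = 0 := by
    intro a b ha hb
    rw [← ha, ← hb, mul_assoc, ← mul_assoc r s b, hrs, zero_mul, mul_zero]
  have key' : ∀ a b : A, a * s = a → r * b = b → a * b = 0 := by
    intro a b ha hb
    rw [← ha, ← hb, mul_assoc, ← mul_assoc s r b, hsr, zero_mul, mul_zero]
  have e : X + Y - (P + Q) = (X - P) + (Y - Q) := by abel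
  refine ⟨P + Q, ?_, ?_, ?_, ?_, ?_, y + w, ?_, ?_, ?_, ?_⟩
  · rw [add_mul, mul_add, mul_add, p1, q1, key r Q hrr q1, key' s P hss p1, add_zero, zero_add]
  · rw [mul_add, add_mul, add_mul, p2, q2, key' Q r q2 hrr, key P s p2 hss, add_zero, zero_add]
  · rw [mul_add, add_mul, add_mul, p3, q3, key P Q p2 q1, key' Q P q2 p1, add_zero, zero_add]
  · rw [e, add_mul, mul_add, mul_add, i1, j1, key r _ hrr j1, key' s _ hss i1, add_zero, zero_add]
  · rw [e, mul_add, add_mul, add_mul, i2, j2, key' _ r j2 hrr, key _ s i2 hss, add_zero, zero_add]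
  · rw [add_mul, mul_add, mul_add, y1, w1, key r _ hrr w1, key' s _ hss y1, add_zero, zero_add]
  · rw [mul_add, add_mul, add_mul, y2, w2, key' _ r w2 hrr, key _ s y2 hss, add_zero, zero_add]
  · rw [e, mul_add, add_mul, add_mul, y3, w3, key' w _ w2 i1, key y _ y2 j1, add_zero, zero_add]
  · rw [e, mul_add, add_mul, add_mul, y4, w4, key' _ y j2 y1, key _ w i2 w1, add_zero, zero_add]

lemma clean_of_CB {r T : A} (hr : PJ r) (hT : T * r = r * T) (h : CB r T) : CleanIn r (r * T) := by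
  obtain ⟨P, y, p1, p2, p3, -, y1, y2, y3, y4, -⟩ := h
  have hrr := PJ.mul_self hr
  have e : r * T * r = r * T := by rw [mul_assoc, hT, ← mul_assoc, hrr]
  rw [e] at y3 y4
  refine ⟨P, p1, p2, p3, ?_, ?_, y, y1, y2, y3, y4⟩
  · rw [mul_sub, ← mul_assoc, hrr, p1]
  · rw [sub_mul, e, p2]

lemma clean_split {z g T : A} (hz : PJ z) (hg : PJ g) (hgz : Le g z) (hTz : T * z = z * T)
    (hTg : T * g = g * T) (h1 : CleanIn g (g * T)) (h2 : CB (z - g) T) : CleanIn z (z * T) := by
  have hzg : PJ (z - g) := pj_sub hg hz hgz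
  have h3 := clean_of_CB hzg (by rw [mul_sub, sub_mul, hTz, hTg]) h2
  obtain ⟨o1, o2⟩ := sub_orth hg hz hgz
  have h4 := clean_add (PJ.mul_self hg) (PJ.mul_self hzg) o1 o2 h1 h3
  have e : g + (z - g) = z := by abel
  rwa [← add_mul, e] at h4

theorem t_FINAL : S_FINAL.{u} := by
  intro A _ hA hF hG T
  obtain ⟨z, ⟨hz, hzc⟩, ⟨g, hPI, hgz, hTg, hcb, hca⟩, ⟨g', k, hg', hg'z, hTg', hcb', hk, hkg, hkf,
    hcbk⟩⟩ := hG T
  have hg : PJ g := hPI.1
  have hzz := PJ.mul_self hz
  have hT1 : T * z = z * T := (hzc T).symm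
  -- the first part
  have h1 : CleanIn g (g * T) := by
    refine hA 4000 g (g * T) hPI ?_ ?_ hca
    · rw [← mul_assoc, PJ.mul_self hg]
    · rw [mul_assoc, hTg, ← mul_assoc, PJ.mul_self hg]
  have h2 : CleanIn z (z * T) := clean_split hz hg hgz hT1 hTg h1 hcb
  -- the second part
  have hz' : PJ (1 - z) := hz.one_sub
  have h3 : CleanIn g' (g' * T) := by
    obtain ⟨P, y, p1, p2, p3, -, y1, y2, y3, y4, -⟩ := hcbk
    have e : (g' - k) * (g' * T) = (g' - k) * T := by
      rw [← mul_assoc, sub_mul g' k g', PJ.mul_self hg', hkg]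
    refine clean_blocks (p := P) (c := y) hg' hk hkg ?_ ?_ p1 p2 p3 y1 y2 ?_ ?_
      (fun T' a b => hF k T' hk hkf a b)
    · rw [← mul_assoc, PJ.mul_self hg']
    · rw [mul_assoc, hTg', ← mul_assoc, PJ.mul_self hg']
    · rw [e]; exact y3
    · rw [e]; exact y4
  have h4 : CleanIn (1 - z) ((1 - z) * T) :=
    clean_split hz' hg' hg'z (by rw [mul_sub, sub_mul, hT1, mul_one, one_mul]) hTg' h3 hcb'
  have o1 : z * (1 - z) = 0 := by rw [mul_sub, mul_one, hzz, sub_self]
  have o2 : (1 - z) * z = 0 := by rw [sub_mul, one_mul, hzz, sub_self]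
  have h5 := clean_add hzz (PJ.mul_self hz') o1 o2 h2 h4
  have e : z + (1 - z) = 1 := by abel
  rwa [← add_mul, e, one_mul] at h5

end Pool.Agent.U141.AWQ
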